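import Pool.Agent.Helper43.Fr.Goals

namespace Pool.Agent.Helper43.Fr.PkNOD

open scoped PowerSeries Polynomial

theorem theta_val {p : ℕ} [Fact p.Prime] {C : Cur p} {T0 T1 k : ℤ_[p][X]}
    (hT : IsTheta C T0 T1) (hk : T1 = (p : ℤ_[p][X]) * k) {S : Type} [CommRing S]
    (φ : ℤ_[p][X] →+* S) (hφ : φ (p : ℤ_[p][X]) = 0) (v ζ : S) (hv : v ^ 2 = φ C.q)
    (hζ : φ C.x0 + φ C.x1 * v = φ C.al ^ 2 * ζ) :
    φ T0 = (C.w : S) ^ ((p - 1) / 2) * (φ C.c0 + φ C.c1 * v) ^ ((p - 1) / 2) *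
      (φ C.al ^ (2 * (p - 1)) * ∑ i ∈ Finset.range p, (aa i : S) * ζ ^ i) := by
  have h1 := hT S φ v hv
  rw [hk, map_mul, hφ, zero_mul, zero_mul, add_zero] at h1
  rw [h1]
  congr 1
  rw [Finset.mul_sum]
  refine Finset.sum_congr rfl fun i hi => ?_
  have hi' : i < p := Finset.mem_range.mp hi
  have h2 : 2 * (p - 1) = 2 * i + 2 * (p - 1 - i) := by omega
  rw [hζ, h2, pow_add, mul_pow, ← pow_mul]
  ring

theorem sum_eq {p : ℕ} {S : Type} [CommRing S] (ζ : S) :
    ∑ i ∈ Finset.range p, (aa i : S) * ζ ^ i = (F1 S p).eval ζ := by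
  rw [F1, Polynomial.eval_finsetSum]
  refine Finset.sum_congr rfl fun i _ => ?_
  rw [Polynomial.eval_monomial]

theorem F1_map {p : ℕ} {R S : Type} [CommRing R] [CommRing S] (f : R →+* S) :
    (F1 R p).map f = F1 S p := by
  rw [F1, F1, Polynomial.map_sum]
  refine Finset.sum_congr rfl fun i _ => ?_
  rw [Polynomial.map_monomial, map_natCast]

/-- evaluation at `t1` as a ring homomorphism -/
noncomputable def evh {p : ℕ} [Fact p.Prime] (t : ZMod p) : ℤ_[p][X] →+* ZMod p :=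
  Polynomial.eval₂RingHom (PadicInt.toZMod (p := p)) t

theorem ev_eq {p : ℕ} [Fact p.Prime] (t : ZMod p) (f : ℤ_[p][X]) : ev t f = evh t f := rfl

/-- evaluation at `t1 + ε` -/
noncomputable def evd {p : ℕ} [Fact p.Prime] (t : ZMod p) : ℤ_[p][X] →+* DualNumber (ZMod p) :=
  Polynomial.eval₂RingHom
    ((algebraMap (ZMod p) (DualNumber (ZMod p))).comp (PadicInt.toZMod (p := p)))
    (algebraMap (ZMod p) (DualNumber (ZMod p)) t + DualNumber.eps)

theorem evd_eq {p : ℕ} [Fact p.Prime] (t : ZMod p) (f : ℤ_[p][X]) :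
    evd t f = algebraMap (ZMod p) (DualNumber (ZMod p)) (ev t f) +
      algebraMap (ZMod p) (DualNumber (ZMod p)) (ev t (Polynomial.derivative f)) *
        DualNumber.eps := by
  show Polynomial.eval₂ ((algebraMap (ZMod p) (DualNumber (ZMod p))).comp
    (PadicInt.toZMod (p := p))) (algebraMap (ZMod p) (DualNumber (ZMod p)) t + DualNumber.eps) f
    = _
  rw [Polynomial.eval₂_eq_eval_map, Polynomial.eval_add_of_sq_eq_zero _ _ _
    DualNumber.eps_pow_two, Polynomial.derivative_map, ← Polynomial.eval₂_eq_eval_map,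
    ← Polynomial.eval₂_eq_eval_map, ← Polynomial.hom_eval₂, ← Polynomial.hom_eval₂]
  rfl

section

variable {p : ℕ} [Fact p.Prime]

theorem two_ne (hp : 3 < p) : (2 : ZMod p) ≠ 0 := by
  intro h
  have h1 : ((2 : ℕ) : ZMod p) = 0 := by exact_mod_cast h
  rw [ZMod.natCast_eq_zero_iff] at h1
  have := Nat.le_of_dvd (by norm_num) h1
  omega

/-- comparison for the second part -/
theorem partB {C : Cur p} {T0 T1 k : ℤ_[p][X]}
    (hp : 3 < p) (hT : IsTheta C T0 T1) (hk : T1 = (p : ℤ_[p][X]) * k) (t1 ξ r : ZMod p)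
    (hr : r ^ 2 = ev t1 C.q) (hr0 : r ≠ 0) (hx1 : ev t1 C.x1 = 0) (hal : ev t1 C.al ≠ 0)
    (hx0 : ev t1 C.x0 = (ev t1 C.al) ^ 2 * ξ) (hF : (F1 (ZMod p) p).eval ξ = 0) :
    ev t1 (Polynomial.derivative T0) =
      (C.w : ZMod p) ^ ((p - 1) / 2) * (ev t1 C.c0 + ev t1 C.c1 * r) ^ ((p - 1) / 2) *
      (ev t1 C.al ^ (2 * (p - 1)) * ((Polynomial.derivative (F1 (ZMod p) p)).eval ξ *
      ((ev t1 (Polynomial.derivative C.x0) + ev t1 (Polynomial.derivative C.x1) * r
        - 2 * ev t1 C.al * ev t1 (Polynomial.derivative C.al) * ξ) / (ev t1 C.al) ^ 2))) := by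
  have h2 := two_ne hp
  set I := algebraMap (ZMod p) (DualNumber (ZMod p)) with hI
  set E : DualNumber (ZMod p) := DualNumber.eps with hE
  have hEE : E * E = 0 := DualNumber.eps_mul_eps
  have hEE2 : E ^ 2 = 0 := DualNumber.eps_pow_two
  set δ := (ev t1 (Polynomial.derivative C.x0) + ev t1 (Polynomial.derivative C.x1) * r
        - 2 * ev t1 C.al * ev t1 (Polynomial.derivative C.al) * ξ) / (ev t1 C.al) ^ 2 with hδ
  have hφ : evd t1 (p : ℤ_[p][X]) = 0 := by
    rw [map_natCast]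
    have : ((p : ℕ) : DualNumber (ZMod p)) = I ((p : ℕ) : ZMod p) := by
      rw [map_natCast]
    rw [this, CharP.cast_eq_zero, map_zero]
  have hv : (I r + I (ev t1 (Polynomial.derivative C.q) / (2 * r)) * E) ^ 2 = evd t1 C.q := by
    rw [evd_eq, ← hI, ← hE, ← hr]
    have h3 : I (ev t1 (Polynomial.derivative C.q)) =
        2 * I r * I (ev t1 (Polynomial.derivative C.q) / (2 * r)) := by
      have : (2 : DualNumber (ZMod p)) = I 2 := by rw [map_ofNat]
      rw [this, ← map_mul, ← map_mul]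
      congr 1
      field_simp
    rw [h3, map_pow]
    linear_combination (I (ev t1 (Polynomial.derivative C.q) / (2 * r))) ^ 2 * hEE
  have hδ' : (ev t1 C.al) ^ 2 * δ = ev t1 (Polynomial.derivative C.x0)
      + ev t1 (Polynomial.derivative C.x1) * r
        - 2 * ev t1 C.al * ev t1 (Polynomial.derivative C.al) * ξ := by
    rw [hδ]; field_simp
  have hζ : evd t1 C.x0 + evd t1 C.x1 *
      (I r + I (ev t1 (Polynomial.derivative C.q) / (2 * r)) * E) =
      (evd t1 C.al) ^ 2 * (I ξ + I δ * E) := by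
    rw [evd_eq, evd_eq, evd_eq, ← hI, ← hE, hx1, hx0, map_zero]
    have h4 := congrArg I hδ'
    simp only [map_mul, map_add, map_sub, map_pow, map_ofNat] at h4 ⊢
    linear_combination (-E) * h4 + (I (ev t1 (Polynomial.derivative C.x1)) *
      I (ev t1 (Polynomial.derivative C.q) / (2 * r)) -
      2 * I (ev t1 C.al) * I (ev t1 (Polynomial.derivative C.al)) * I δ
      - I (ev t1 (Polynomial.derivative C.al)) ^ 2 * (I ξ + I δ * E)) * hEE
  have h5 := theta_val hT hk (evd t1) hφ _ _ hv hζ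
  have h6 : ∑ i ∈ Finset.range p, (aa i : DualNumber (ZMod p)) * (I ξ + I δ * E) ^ i =
      I ((Polynomial.derivative (F1 (ZMod p) p)).eval ξ * δ) * E := by
    rw [sum_eq, ← F1_map I, Polynomial.eval_add_of_sq_eq_zero _ _ _ (by
      linear_combination (I δ) ^ 2 * hEE), Polynomial.derivative_map, Polynomial.eval_map,
      Polynomial.eval_map, Polynomial.eval₂_at_apply, Polynomial.eval₂_at_apply, hF, map_zero,
      map_mul]
    ring
  rw [h6] at h5
  have h7 := congrArg TrivSqZeroExt.snd h5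
  have h8 : ∀ (A : DualNumber (ZMod p)) (b : ZMod p),
      TrivSqZeroExt.snd (A * (I b * E)) = TrivSqZeroExt.fst A * b := by
    intro A b
    rw [DualNumber.snd_mul]
    have h9 : TrivSqZeroExt.snd (I b * E) = b := by
      rw [DualNumber.snd_mul, hE, DualNumber.snd_eps, DualNumber.fst_eps]
      simp [hI, TrivSqZeroExt.algebraMap_eq_inl]
    have h10 : TrivSqZeroExt.fst (I b * E) = 0 := by
      rw [TrivSqZeroExt.fst_mul, hE, DualNumber.fst_eps, mul_zero]
    rw [h9, h10, mul_zero, add_zero]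
  rw [← mul_assoc, h8, evd_eq] at h7
  have h11 : ∀ b : ZMod p, TrivSqZeroExt.snd (I b) = 0 := by
    intro b; simp [hI, TrivSqZeroExt.algebraMap_eq_inl]
  have h12 : ∀ b : ZMod p, TrivSqZeroExt.fst (I b) = b := by
    intro b; simp [hI, TrivSqZeroExt.algebraMap_eq_inl]
  have h13 : ∀ a b : ZMod p, TrivSqZeroExt.snd (I a + I b * E) = b := by
    intro a b
    rw [TrivSqZeroExt.snd_add, h11, DualNumber.snd_mul, hE, DualNumber.snd_eps,
      DualNumber.fst_eps, h12]
    ring
  have h14 : ∀ a b : ZMod p, TrivSqZeroExt.fst (I a + I b * E) = a := by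
    intro a b
    rw [TrivSqZeroExt.fst_add, TrivSqZeroExt.fst_mul, hE, DualNumber.fst_eps, h12]
    ring
  rw [← hI, ← hE, h13] at h7
  rw [h7]
  have h15 : TrivSqZeroExt.fst ((C.w : DualNumber (ZMod p)) ^ ((p - 1) / 2) *
      (evd t1 C.c0 + evd t1 C.c1 *
        (I r + I (ev t1 (Polynomial.derivative C.q) / (2 * r)) * E)) ^ ((p - 1) / 2) *
      evd t1 C.al ^ (2 * (p - 1))) =
      (C.w : ZMod p) ^ ((p - 1) / 2) * (ev t1 C.c0 + ev t1 C.c1 * r) ^ ((p - 1) / 2) *
      ev t1 C.al ^ (2 * (p - 1)) := by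
    have h16 : ∀ A : DualNumber (ZMod p), TrivSqZeroExt.fst A =
      TrivSqZeroExt.fstHom (ZMod p) (ZMod p) (ZMod p) A := fun A => rfl
    rw [h16, map_mul, map_mul, map_pow, map_pow, map_pow, map_add, map_mul, map_natCast,
      ← h16, ← h16, ← h16, ← h16, evd_eq, evd_eq, evd_eq, ← hI, ← hE, h14, h14, h14, h14]
  rw [h15]
  ring

theorem nod (hTH : G_TH) (hMA : G_MASA) (hMU : G_MUL) : G_NOD := by
  intro p _ hp C t1 ξ hD hq hx1 hal hc0 hc1 hx1' hx0 hrel
  obtain ⟨T0, T1, hT⟩ := hTH p hp C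
  obtain ⟨k, hk, -⟩ := hMA p hp C T0 T1 hT
  have hpp : p.Prime := Fact.out
  have hodd : p % 2 = 1 := by
    rcases hpp.eq_two_or_odd with h | h
    · omega
    · exact h
  have h2 : (2 : ZMod p) ≠ 0 := two_ne hp
  have hh : (p - 1) / 2 + (p - 1) / 2 = p - 1 := by omega
  have hh2 : p / 2 = (p - 1) / 2 := by omega
  have hN : (C.N : ZMod p) ≠ 0 := by
    rw [Ne, ZMod.natCast_eq_zero_iff]; exact C.hN
  have hw : (C.w : ZMod p) ≠ 0 := by
    rw [Ne, ZMod.natCast_eq_zero_iff]; exact C.hw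
  have hnorm : (ev t1 C.c0) ^ 2 - ev t1 C.q * (ev t1 C.c1) ^ 2 =
      (C.N : ZMod p) ^ 2 * (ev t1 C.al) ^ 2 := by
    have := congrArg (evh t1) C.hnorm
    simp only [map_sub, map_mul, map_pow, map_natCast] at this
    exact this
  constructor
  · -- part B
    intro hF hsq
    obtain ⟨r, hr⟩ := hsq
    have hr' : r ^ 2 = ev t1 C.q := by rw [hr]; ring
    have hr0 : r ≠ 0 := by
      rintro rfl
      rw [mul_zero] at hr
      exact hq hr
    have hf' := (hMU p hp (ZMod p) ξ hF).2 hD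
    have e1 := partB hp hT hk t1 ξ r hr' hr0 hx1 hal hx0 hF
    have e2 := partB hp hT hk t1 ξ (-r) (by rw [neg_sq]; exact hr') (neg_ne_zero.mpr hr0)
      hx1 hal hx0 hF
    rw [e1] at e2
    set a := ev t1 C.al with ha
    set c0 := ev t1 C.c0 with hc0'
    set c1 := ev t1 C.c1 with hc1'
    set y0 := ev t1 (Polynomial.derivative C.x0) with hy0
    set y1 := ev t1 (Polynomial.derivative C.x1) with hy1
    set a' := ev t1 (Polynomial.derivative C.al) with ha'
    set f' := (Polynomial.derivative (F1 (ZMod p) p)).eval ξ with hf'd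
    -- cancel
    have e3 : (c0 + c1 * r) ^ ((p - 1) / 2) * (y0 + y1 * r - 2 * a * a' * ξ) =
        (c0 + c1 * (-r)) ^ ((p - 1) / 2) * (y0 + y1 * (-r) - 2 * a * a' * ξ) := by
      have hz : (C.w : ZMod p) ^ ((p - 1) / 2) * a ^ (2 * (p - 1)) * f' / a ^ 2 ≠ 0 := by
        refine div_ne_zero (mul_ne_zero (mul_ne_zero (pow_ne_zero _ hw) (pow_ne_zero _ hal)) hf')
          (pow_ne_zero _ hal)
      refine mul_left_cancel₀ hz ?_
      have l1 : ∀ u z : ZMod p, (C.w : ZMod p) ^ ((p - 1) / 2) * u *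
          (a ^ (2 * (p - 1)) * (f' * (z / a ^ 2))) =
          (C.w : ZMod p) ^ ((p - 1) / 2) * a ^ (2 * (p - 1)) * f' / a ^ 2 * (u * z) := by
        intro u z
        ring
      rw [l1, l1] at e2
      exact e2
    have e4 : (c0 + c1 * r) ^ ((p - 1) / 2) * (y1 * (c0 + c1 * r)) =
        (c0 + c1 * (-r)) ^ ((p - 1) / 2) * (y1 * (c0 + c1 * (-r))) := by
      have m1 : (y0 + y1 * r - 2 * a * a' * ξ) * c1 = y1 * (c0 + c1 * r) := by
        linear_combination hrel
      have m2 : (y0 + y1 * (-r) - 2 * a * a' * ξ) * c1 = y1 * (c0 + c1 * (-r)) := by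
        linear_combination hrel
      rw [← m1, ← m2, ← mul_assoc, ← mul_assoc, e3]
    set u := c0 + c1 * r with hu
    set u' := c0 + c1 * (-r) with hu'
    have huu : u * u' = ((C.N : ZMod p) * a) ^ 2 := by
      rw [hu, hu', mul_pow, ← hnorm, ← hr']; ring
    have hNa : (C.N : ZMod p) * a ≠ 0 := mul_ne_zero hN hal
    have hu0 : u ≠ 0 := by
      intro h
      rw [h, zero_mul] at huu
      exact hNa (pow_eq_zero_iff (two_ne_zero) |>.mp huu.symm)
    have hu'0 : u' ≠ 0 := by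
      intro h
      rw [h, mul_zero] at huu
      exact hNa (pow_eq_zero_iff (two_ne_zero) |>.mp huu.symm)
    have e5 : u ^ ((p - 1) / 2) * u = u' ^ ((p - 1) / 2) * u' := by
      refine mul_left_cancel₀ hx1' ?_
      linear_combination e4
    have e6 : u ^ ((p - 1) / 2) * u' ^ ((p - 1) / 2) = 1 := by
      rw [← mul_pow, huu, ← pow_mul, two_mul, hh, ZMod.pow_card_sub_one_eq_one hNa]
    have e7 : u ^ ((p - 1) / 2) * u ^ ((p - 1) / 2) = 1 := by
      rw [← pow_add, hh, ZMod.pow_card_sub_one_eq_one hu0]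
    have e8 : u ^ ((p - 1) / 2) = u' ^ ((p - 1) / 2) := by
      refine mul_left_cancel₀ (pow_ne_zero ((p - 1) / 2) hu0) ?_
      rw [e6, e7]
    have e9 : u = u' := by
      rw [e8] at e5
      exact mul_left_cancel₀ (pow_ne_zero _ hu'0) e5
    have e10 : 2 * (c1 * r) = 0 := by
      rw [hu, hu'] at e9
      linear_combination e9
    exact (mul_ne_zero h2 (mul_ne_zero hc1 hr0)) e10
  · -- part A
    intro hns
    by_contra hF
    let K := AlgebraicClosure (ZMod p)
    set I := algebraMap (ZMod p) K with hI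
    have hIinj : Function.Injective I := I.injective
    have hchar : CharP K p := charP_of_injective_algebraMap hIinj p
    obtain ⟨v, hv⟩ := IsAlgClosed.exists_pow_nat_eq (I (ev t1 C.q)) (n := 2) (by norm_num)
    set φ : ℤ_[p][X] →+* K := I.comp (evh t1) with hφd
    have hφ : φ (p : ℤ_[p][X]) = 0 := by
      rw [map_natCast]
      exact CharP.cast_eq_zero K p
    have hφe : ∀ f, φ f = I (ev t1 f) := fun f => rfl
    have t1' := theta_val hT hk φ hφ v (I ξ) (by rw [hv]; rfl) (by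
      rw [hφe, hφe, hφe, hx1, hx0, map_zero, zero_mul, add_zero, map_mul, map_pow])
    have t2' := theta_val hT hk φ hφ (-v) (I ξ) (by rw [neg_sq, hv]; rfl) (by
      rw [hφe, hφe, hφe, hx1, hx0, map_zero, zero_mul, add_zero, map_mul, map_pow])
    rw [t1'] at t2'
    have hs : ∑ i ∈ Finset.range p, (aa i : K) * (I ξ) ^ i = I ((F1 (ZMod p) p).eval ξ) := by
      rw [sum_eq, ← F1_map I, Polynomial.eval_map, Polynomial.eval₂_at_apply]
    have hs0 : φ C.al ^ (2 * (p - 1)) * ∑ i ∈ Finset.range p, (aa i : K) * (I ξ) ^ i ≠ 0 := by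
      rw [hs, hφe]
      exact mul_ne_zero (pow_ne_zero _ (by rw [Ne, map_eq_zero]; exact hal))
        (by rw [Ne, map_eq_zero]; exact hF)
    have hw0 : (C.w : K) ^ ((p - 1) / 2) ≠ 0 := by
      refine pow_ne_zero _ ?_
      rw [← map_natCast I, Ne, map_eq_zero]; exact hw
    have e1 : (φ C.c0 + φ C.c1 * v) ^ ((p - 1) / 2) = (φ C.c0 + φ C.c1 * (-v)) ^ ((p - 1) / 2) :=
      mul_left_cancel₀ hw0 (mul_right_cancel₀ hs0 t2')
    rw [hφe, hφe] at e1
    set c0 := ev t1 C.c0 with hc0'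
    set c1 := ev t1 C.c1 with hc1'
    set a := ev t1 C.al with ha
    set u := I c0 + I c1 * v with hu
    set u' := I c0 + I c1 * (-v) with hu'
    have huu : u * u' = (I ((C.N : ZMod p) * a)) ^ 2 := by
      rw [← map_pow, mul_pow, ← hnorm, hu, hu', map_sub, map_mul, map_pow, map_pow, ← hv]; ring
    have hNa : (C.N : ZMod p) * a ≠ 0 := mul_ne_zero hN hal
    have hNa' : I ((C.N : ZMod p) * a) ≠ 0 := by rw [Ne, map_eq_zero]; exact hNa
    have e2 : (ev t1 C.q) ^ ((p - 1) / 2) = -1 := by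
      have h1 := ZMod.pow_div_two_eq_neg_one_or_one p hq
      rw [hh2] at h1
      rcases h1 with h1 | h1
      · exact absurd ((ZMod.euler_criterion p hq).mpr (by rw [hh2]; exact h1)) hns
      · exact h1
    have e3 : v ^ p = -v := by
      have h3 : p = 2 * ((p - 1) / 2) + 1 := by omega
      calc v ^ p = v ^ (2 * ((p - 1) / 2) + 1) := by rw [← h3]
        _ = (v ^ 2) ^ ((p - 1) / 2) * v := by rw [pow_add, pow_mul, pow_one]
        _ = -v := by rw [hv, ← map_pow, e2, map_neg, map_one, neg_one_mul]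
    have e4 : u ^ p = u' := by
      rw [hu, add_pow_char, mul_pow, e3, ← map_pow, ← map_pow, ZMod.pow_card, ZMod.pow_card]
    have e5 : u ^ (p - 1) = 1 := by
      rw [← hh, pow_add]
      nth_rewrite 2 [e1]
      rw [← mul_pow, huu, ← pow_mul, ← map_pow, two_mul, hh, ZMod.pow_card_sub_one_eq_one hNa,
        map_one]
    have e6 : u ^ p = u := by
      have h3 : p = (p - 1) + 1 := by omega
      calc u ^ p = u ^ ((p - 1) + 1) := by rw [← h3]
        _ = u := by rw [pow_add, e5, one_mul, pow_one]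
    have e7 : (2 : K) * (I c1 * v) = 0 := by
      have h3 : u = u' := e6.symm.trans e4
      rw [hu, hu'] at h3
      linear_combination h3
    have h2K : (2 : K) ≠ 0 := by
      have : (2 : K) = I 2 := by rw [map_ofNat]
      rw [this, Ne, map_eq_zero]; exact h2
    have hv0 : v ≠ 0 := by
      rintro rfl
      rw [zero_pow two_ne_zero] at hv
      exact hq ((map_eq_zero I).mp hv.symm)
    exact (mul_ne_zero h2K (mul_ne_zero (by rw [Ne, map_eq_zero]; exact hc1) hv0)) e7

end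

end Pool.Agent.Helper43.Fr.PkNOD
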